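import Pool.Agent.Lib.MP_0a0e82_gt.Main

set_option autoImplicit false

namespace Pool.Agent.Results.MP_0a0e82_gt.TotalExceedsSum

open Pool.Agent.Lib.MP_0a0e82_gt

/-- There is a virtual link `L` whose total crossing number exceeds the sum of its virtual and its
classical crossing number: `T(L) > V(L) + C(L)`. -/
theorem result : ∃ (m : ℕ) (L : VirtualLink m), L.V + L.C < L.T := by
  obtain ⟨h1, h2, h3⟩ := numbers
  exact ⟨49, TA.toDiagram.link, by omega⟩

end Pool.Agent.Results.MP_0a0e82_gt.TotalExceedsSum
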